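import Pool.Agent.helper10.ICT.Pair

set_option autoImplicit false

/-!
# The oracle for a list of entries
-/

namespace Pool.Agent.ICT

open scoped Classical
open Pool.Agent.ICO

/-- An entry: a string `z`, a bit `a` and a number `L`. -/
structure Ent where
  z : Str
  a : Bool
  L : ℕ

/-- The four kinds of words for which the answer of the oracle is `1`. -/
def Yes (S : ℕ → Option Ent) (w : Str) : Prop :=
  (∃ z p : Str, p.length ≤ z.length ∧ w = false :: cod z p ∧
    ((p = [] ∧ ¬ ∃ j e, S j = some e ∧ e.z = z) ∨ (p ≠ [] ∧ ∃ e, S p.length = some e ∧ e.z = z))) ∨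
  (∃ z p : Str, p.length ≤ z.length ∧ w = false :: cod z p ++ [true] ∧ p.head? = some true) ∨
  (∃ (z : Str) (L : ℕ), w = hdr 1 z ++ List.replicate L false ∧
    ((¬ ∃ j e, S j = some e ∧ e.z = z) ∨ ∃ j e, S j = some e ∧ e.z = z ∧ e.L ≤ L)) ∨
  (∃ (z : Str) (L : ℕ), w = hdr 1 z ++ List.replicate L false ++ [true] ∧
    ∃ j e, S j = some e ∧ e.z = z ∧ e.L ≤ L ∧ e.a = true)

/-- The oracle. -/
noncomputable def orc (S : ℕ → Option Ent) (w : Str) : Bool := decide (Yes S w)

theorem hdr_one (z : Str) : hdr 1 z = true :: false :: (dbl z ++ [false]) := rfl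

theorem hdr_inj {z z' r r' : Str} (h : hdr 1 z ++ r = hdr 1 z' ++ r') : z = z' ∧ r = r' := by
  simp only [hdr_one, List.cons_append, List.cons.injEq, true_and, List.append_assoc, List.nil_append] at h
  have h1 := pv_spec z r
  rw [h, pv_spec] at h1
  simp only [Prod.mk.injEq] at h1
  exact ⟨h1.1.symm, h1.2.symm⟩

theorem rep_ne (L L' : ℕ) : List.replicate L false ≠ List.replicate L' false ++ [true] := by
  intro h
  have h1 := pl_spec₁ L
  rw [h, pl_spec₂ L' []] at h1
  simp at h1

theorem rep_inj {L L' : ℕ} (h : List.replicate L false ++ [true] = List.replicate L' false ++ [true]) : L = L' := by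
  have := congrArg List.length h
  simpa using this

/-- The word `w` mentions `z`. -/
def Ment (w z : Str) : Prop :=
  (∃ p r : Str, p.length ≤ z.length ∧ w = false :: cod z p ++ r) ∨ ∃ r : Str, w = hdr 1 z ++ r

theorem Ment.unique {w z z' : Str} (h : Ment w z) (h' : Ment w z') : z = z' := by
  rcases h with ⟨p, r, hp, h⟩ | ⟨r, h⟩
  · rcases h' with ⟨p', r', hp', h'⟩ | ⟨r', h'⟩
    · rw [h] at h'
      simp only [List.cons_append, List.cons.injEq, true_and] at h'
      exact (cod_inj z z' p p' r r' hp hp' h').1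
    · rw [h] at h'
      simp [hdr_one] at h'
  · rcases h' with ⟨p', r', hp', h'⟩ | ⟨r', h'⟩
    · rw [h] at h'
      simp [hdr_one] at h'
    · rw [h] at h'
      exact (hdr_inj h').1

theorem Ment.length {w z : Str} (h : Ment w z) : z.length ≤ w.length := by
  rcases h with ⟨p, r, hp, h⟩ | ⟨r, h⟩
  · rw [h]
    simp only [List.cons_append, List.length_cons, List.length_append, length_cod]
    omega
  · rw [h]
    simp only [List.length_append, length_hdr]
    omega

/-- The answers on `w` agree. -/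
theorem orc_congr {S S' : ℕ → Option Ent} {w : Str} (h : ∀ z, Ment w z → ∀ j,
    ((∃ e, S j = some e ∧ e.z = z) ↔ (∃ e, S' j = some e ∧ e.z = z)) ∧
    ∀ e, e.z = z → e.L ≤ w.length → (S j = some e ↔ S' j = some e)) : orc S w = orc S' w := by
  unfold orc
  congr 1
  rw [eq_iff_iff]
  unfold Yes
  have hx : ∀ z, Ment w z → ((∃ j e, S j = some e ∧ e.z = z) ↔ (∃ j e, S' j = some e ∧ e.z = z)) :=
    fun z hz => exists_congr fun j => (h z hz j).1
  refine or_congr ?_ (or_congr Iff.rfl (or_congr ?_ ?_))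
  · refine exists_congr fun z => exists_congr fun p => and_congr_right fun hp => and_congr_right fun hw => ?_
    have hm : Ment w z := Or.inl ⟨p, [], hp, by rw [hw]; simp⟩
    rw [hx z hm, (h z hm p.length).1]
  · refine exists_congr fun z => exists_congr fun L => and_congr_right fun hw => ?_
    have hm : Ment w z := Or.inr ⟨_, hw⟩
    have hl : L ≤ w.length := by rw [hw]; simp
    rw [hx z hm]
    refine or_congr Iff.rfl (exists_congr fun j => exists_congr fun e => ?_)
    constructor
    · rintro ⟨h1, h2, h3⟩; exact ⟨((h z hm j).2 e h2 (h3.trans hl)).mp h1, h2, h3⟩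
    · rintro ⟨h1, h2, h3⟩; exact ⟨((h z hm j).2 e h2 (h3.trans hl)).mpr h1, h2, h3⟩
  · refine exists_congr fun z => exists_congr fun L => and_congr_right fun hw => ?_
    have hm : Ment w z := Or.inr ⟨_, by rw [hw, List.append_assoc]⟩
    have hl : L ≤ w.length := by rw [hw]; simp; omega
    refine exists_congr fun j => exists_congr fun e => ?_
    constructor
    · rintro ⟨h1, h2, h3, h4⟩; exact ⟨((h z hm j).2 e h2 (h3.trans hl)).mp h1, h2, h3, h4⟩
    · rintro ⟨h1, h2, h3, h4⟩; exact ⟨((h z hm j).2 e h2 (h3.trans hl)).mpr h1, h2, h3, h4⟩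

section

variable {S : ℕ → Option Ent}

theorem orc_cod {z p : Str} (hp : p.length ≤ z.length) : orc S (false :: cod z p) = true ↔
    ((p = [] ∧ ¬ ∃ j e, S j = some e ∧ e.z = z) ∨ (p ≠ [] ∧ ∃ e, S p.length = some e ∧ e.z = z)) := by
  unfold orc
  rw [decide_eq_true_iff]
  constructor
  · rintro (⟨z', p', hp', hw, h⟩ | ⟨z', p', hp', hw, h⟩ | ⟨z', L, hw, h⟩ | ⟨z', L, hw, h⟩)
    · have h1 : cod z p ++ [] = cod z' p' ++ [] := by simpa using hw
      obtain ⟨rfl, rfl, _⟩ := cod_inj z z' p p' [] [] hp hp' h1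
      exact h
    · have h1 : cod z p ++ [] = cod z' p' ++ [true] := by simpa using hw
      have h2 := (cod_inj z z' p p' [] [true] hp hp' h1).2.2
      simp at h2
    · simp [hdr_one] at hw
    · simp [hdr_one] at hw
  · intro h
    exact Or.inl ⟨z, p, hp, rfl, h⟩

theorem orc_cod_true {z p : Str} (hp : p.length ≤ z.length) : orc S (false :: cod z p ++ [true]) = true ↔
    p.head? = some true := by
  unfold orc
  rw [decide_eq_true_iff]
  constructor
  · rintro (⟨z', p', hp', hw, h⟩ | ⟨z', p', hp', hw, h⟩ | ⟨z', L, hw, h⟩ | ⟨z', L, hw, h⟩)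
    · have h1 : cod z p ++ [true] = cod z' p' ++ [] := by simpa using hw
      have h2 := (cod_inj z z' p p' [true] [] hp hp' h1).2.2
      simp at h2
    · have h1 : cod z p ++ [true] = cod z' p' ++ [true] := by simpa using hw
      obtain ⟨rfl, rfl, _⟩ := cod_inj z z' p p' [true] [true] hp hp' h1
      exact h
    · simp [hdr_one] at hw
    · simp [hdr_one] at hw
  · intro h
    exact Or.inr (Or.inl ⟨z, p, hp, rfl, h⟩)

theorem orc_flag {z : Str} {L : ℕ} : orc S (hdr 1 z ++ List.replicate L false) = true ↔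
    ((¬ ∃ j e, S j = some e ∧ e.z = z) ∨ ∃ j e, S j = some e ∧ e.z = z ∧ e.L ≤ L) := by
  unfold orc
  rw [decide_eq_true_iff]
  constructor
  · rintro (⟨z', p', hp', hw, h⟩ | ⟨z', p', hp', hw, h⟩ | ⟨z', L', hw, h⟩ | ⟨z', L', hw, h⟩)
    · simp [hdr_one] at hw
    · simp [hdr_one] at hw
    · obtain ⟨rfl, h1⟩ := hdr_inj hw
      obtain rfl : L = L' := by simpa using congrArg List.length h1
      exact h
    · rw [List.append_assoc] at hw
      exact absurd (hdr_inj hw).2 (rep_ne _ _)
  · intro h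
    exact Or.inr (Or.inr (Or.inl ⟨z, L, rfl, h⟩))

theorem orc_ans {z : Str} {L : ℕ} : orc S (hdr 1 z ++ List.replicate L false ++ [true]) = true ↔
    ∃ j e, S j = some e ∧ e.z = z ∧ e.L ≤ L ∧ e.a = true := by
  unfold orc
  rw [decide_eq_true_iff]
  constructor
  · rintro (⟨z', p', hp', hw, h⟩ | ⟨z', p', hp', hw, h⟩ | ⟨z', L', hw, h⟩ | ⟨z', L', hw, h⟩)
    · simp [hdr_one] at hw
    · simp [hdr_one] at hw
    · rw [List.append_assoc] at hw
      exact absurd (hdr_inj hw).2.symm (rep_ne _ _)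
    · rw [List.append_assoc, List.append_assoc] at hw
      obtain ⟨rfl, h1⟩ := hdr_inj hw
      obtain rfl := rep_inj h1
      exact h
  · intro h
    exact Or.inr (Or.inr (Or.inr ⟨z, L, rfl, h⟩))

end

end Pool.Agent.ICT
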