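import Pool.Agent.helper10.ICT.Stage

set_option autoImplicit false

/-!
# The main argument
-/

namespace Pool.Agent.ICT

open scoped Classical
open Pool.Agent.ICO

section

variable (U : ℕ → OTM) (D : ℕ → OTM × {g : ℕ → ℕ // Computable g}) (F : ℕ → {f : ℕ → ℕ // Computable f ∧ Small f})

/-- The initial segments. -/
noncomputable def H : ℕ → List Ent
  | 0 => []
  | i + 1 => H i ++ [(exists_next U D F (H i)).choose]

/-- The entries. -/
noncomputable def E (i : ℕ) : Ent := (exists_next U D F (H U D F i)).choose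

theorem H_succ (i : ℕ) : H U D F (i + 1) = H U D F i ++ [E U D F i] := rfl

theorem H_length (i : ℕ) : (H U D F i).length = i := by
  induction i with
  | zero => rfl
  | succ i ih => rw [H_succ, List.length_append, ih]; rfl

theorem H_get (i j : ℕ) (hj : j < i) : ls (H U D F i) j = some (E U D F j) := by
  unfold ls
  induction i with
  | zero => omega
  | succ i ih =>
    rw [H_succ]
    rcases Nat.lt_or_ge j i with h | h
    · rw [List.getElem?_append_left (by rw [H_length]; exact h)]
      exact ih h
    · obtain rfl : j = i := by omega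
      rw [List.getElem?_append_right (by rw [H_length])]
      simp [H_length]

theorem H_none (i j : ℕ) (hj : i ≤ j) : ls (H U D F i) j = none := by
  unfold ls
  exact List.getElem?_eq_none (by rw [H_length]; exact hj)

theorem E_next (i : ℕ) : Next U D F (H U D F i) (E U D F i) := (exists_next U D F (H U D F i)).choose_spec

/-- All entries. -/
noncomputable def SS (j : ℕ) : Option Ent := some (E U D F j)

theorem E_lt {i j : ℕ} (h : i < j) : (E U D F i).L < (E U D F j).z.length ∧
    (E U D F i).z.length < (E U D F j).z.length := by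
  refine (E_next U D F j).old _ ?_
  have := H_get U D F j i h
  unfold ls at this
  exact List.mem_of_getElem? this

theorem E_inj {i j : ℕ} (h : (E U D F i).z = (E U D F j).z) : i = j := by
  rcases Nat.lt_trichotomy i j with h1 | h1 | h1
  · have := (E_lt U D F h1).2; rw [h] at this; omega
  · exact h1
  · have := (E_lt U D F h1).2; rw [h] at this; omega

theorem agree₁ {i : ℕ} {w : Str} (h1 : w.length < (E U D F i).L) (h2 : ¬ Ment w (E U D F i).z) :
    orc (SS U D F) w = orc (ls (H U D F i)) w := by
  refine orc_congr fun z hz j => ?_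
  have hzl := hz.length
  rcases Nat.lt_trichotomy j i with h | h | h
  · rw [H_get U D F i j h]
    exact ⟨Iff.rfl, fun e _ _ => Iff.rfl⟩
  · subst h
    rw [H_none U D F j j le_rfl]
    constructor
    · constructor
      · rintro ⟨e, he, hez⟩
        obtain rfl := Option.some.inj he
        rw [← hez] at hz
        exact absurd hz h2
      · rintro ⟨e, he, _⟩; simp at he
    · intro e hez _
      constructor
      · intro he
        obtain rfl := Option.some.inj he
        rw [← hez] at hz
        exact absurd hz h2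
      · intro he; simp at he
  · rw [H_none U D F i j h.le]
    have h3 := (E_lt U D F h).1
    constructor
    · constructor
      · rintro ⟨e, he, hez⟩
        obtain rfl := Option.some.inj he
        rw [← hez] at hzl
        omega
      · rintro ⟨e, he, _⟩; simp at he
    · intro e hez _
      constructor
      · intro he
        obtain rfl := Option.some.inj he
        rw [← hez] at hzl
        omega
      · intro he; simp at he

theorem agree₂ {i : ℕ} {w : Str} (h1 : w.length < (E U D F i).L) :
    orc (SS U D F) w = orc (ls (H U D F i ++ [⟨(E U D F i).z, false, (E U D F i).L⟩])) w := by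
  refine orc_congr fun z hz j => ?_
  have hzl := hz.length
  rcases Nat.lt_trichotomy j i with h | h | h
  · have : ls (H U D F i ++ [⟨(E U D F i).z, false, (E U D F i).L⟩]) j = some (E U D F j) := by
      have h3 := H_get U D F i j h
      unfold ls at h3 ⊢
      rw [List.getElem?_append_left (by rw [H_length]; exact h)]
      exact h3
    rw [this]
    exact ⟨Iff.rfl, fun e _ _ => Iff.rfl⟩
  · subst h
    have : ls (H U D F j ++ [⟨(E U D F j).z, false, (E U D F j).L⟩]) j =
        some ⟨(E U D F j).z, false, (E U D F j).L⟩ := by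
      unfold ls
      rw [List.getElem?_append_right (by rw [H_length])]
      simp [H_length]
    rw [this]
    constructor
    · constructor
      · rintro ⟨e, he, hez⟩
        obtain rfl := Option.some.inj he
        exact ⟨_, rfl, hez⟩
      · rintro ⟨e, he, hez⟩
        obtain rfl := Option.some.inj he
        exact ⟨_, rfl, hez⟩
    · intro e hez hL
      constructor
      · intro he
        obtain rfl := Option.some.inj he
        omega
      · intro he
        obtain rfl := Option.some.inj he
        simp only at hL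
        omega
  · have : ls (H U D F i ++ [⟨(E U D F i).z, false, (E U D F i).L⟩]) j = none := by
      unfold ls
      exact List.getElem?_eq_none (by rw [List.length_append, H_length]; simp; omega)
    rw [this]
    have h3 := (E_lt U D F h).1
    constructor
    · constructor
      · rintro ⟨e, he, hez⟩
        obtain rfl := Option.some.inj he
        rw [← hez] at hzl
        omega
      · rintro ⟨e, he, _⟩; simp at he
    · intro e hez _
      constructor
      · intro he
        obtain rfl := Option.some.inj he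
        rw [← hez] at hzl
        omega
      · intro he; simp at he

/-- The oracle. -/
noncomputable def BB : Str → Bool := orc (SS U D F)

/-- The set. -/
def AA : Set Str := {z | ∃ j, (E U D F j).z = z ∧ (E U D F j).a = true}

theorem chi_E (i : ℕ) : chi (AA U D F) (E U D F i).z = (E U D F i).a := by
  unfold chi
  rw [Bool.eq_iff_iff, decide_eq_true_iff]
  constructor
  · rintro ⟨j, h1, h2⟩
    obtain rfl := E_inj U D F h1
    exact h2
  · intro h
    exact ⟨i, rfl, h⟩

theorem chi_not {z : Str} (h : ¬ ∃ j, (E U D F j).z = z) : chi (AA U D F) z = false := by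
  unfold chi
  rw [decide_eq_false_iff_not]
  rintro ⟨j, h1, _⟩
  exact h ⟨j, h1⟩

theorem ex_iff (z : Str) : (∃ j e, SS U D F j = some e ∧ e.z = z) ↔ ∃ j, (E U D F j).z = z := by
  constructor
  · rintro ⟨j, e, he, hz⟩
    obtain rfl := Option.some.inj he
    exact ⟨j, hz⟩
  · rintro ⟨j, hz⟩
    exact ⟨j, _, rfl, hz⟩

/-- The set is recursive in the oracle. -/
theorem AA_recursive : Recursive (BB U D F) (AA U D F) := by
  refine ⟨guide 1 2 true, fun z => ?_⟩
  by_cases hz : ∃ j, (E U D F j).z = z
  · obtain ⟨i, rfl⟩ := hz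
    refine ⟨_, guide_decide (L := (E U D F i).L) ?_ ?_ ?_⟩
    · intro l hl
      rw [← Bool.not_eq_true, BB, orc_flag]
      rintro (h | ⟨j, e, he, hz, hL⟩)
      · exact h ((ex_iff U D F _).mpr ⟨i, rfl⟩)
      · obtain rfl := Option.some.inj he
        obtain rfl := E_inj U D F hz
        omega
    · rw [BB, orc_flag]
      exact Or.inr ⟨i, _, rfl, rfl, le_rfl⟩
    · rw [chi_E, Bool.eq_iff_iff, BB, orc_ans]
      constructor
      · rintro ⟨j, e, he, hz, _, ha⟩
        obtain rfl := Option.some.inj he
        obtain rfl := E_inj U D F hz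
        exact ha
      · intro ha
        exact ⟨i, _, rfl, rfl, le_rfl, ha⟩
  · refine ⟨_, guide_decide (L := 0) (fun l hl => absurd hl (by omega)) ?_ ?_⟩
    · rw [BB, orc_flag]
      exact Or.inl (fun h => hz ((ex_iff U D F z).mp h))
    · rw [chi_not U D F hz, ← Bool.not_eq_true, BB, orc_ans]
      rintro ⟨j, e, he, hz', _⟩
      exact hz ((ex_iff U D F z).mp ⟨j, e, he, hz'⟩)

/-- The set is hard for all computable time bounds. -/
theorem AA_hard (hD : Function.Surjective D) {t g : ℕ → ℕ} (hg : Computable g) (htg : ∀ n, t n ≤ g n) :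
    ¬ DTime (BB U D F) t (AA U D F) := by
  rintro ⟨M, K, hM⟩
  have hcomp : Computable (fun n => K * g n + K) :=
    Primrec.nat_add.to_comp.comp (Primrec.nat_mul.to_comp.comp (Computable.const K) hg) (Computable.const K)
  obtain ⟨i, hi⟩ := hD (M, ⟨fun n => K * g n + K, hcomp⟩)
  have hn := E_next U D F i
  have hl := H_length U D F i
  have h1 := hn.dia
  have h2 := hn.bnd2
  rw [hl, hi] at h1 h2
  simp only at h1 h2
  apply h1
  have h3 : run M (BB U D F) [] [] (E U D F i).z (K * g (E U D F i).z.length + K) =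
      some (some (Sum.inr (some (E U D F i).a))) := by
    rw [← chi_E]
    exact run_mono _ _ _ _ _ (by
      have := Nat.mul_le_mul_left K (htg (E U D F i).z.length)
      omega) (hM _)
  rw [← h3]
  unfold run
  refine run_congr _ _ _ _ _ fun s hs w hw => ?_
  have hlen := qat_length _ _ _ _ _ hw
  have : w.length < (E U D F i).L := by
    have h0 : (init M [] [] (E U D F i).z).head (queryTape M) = 0 := rfl
    omega
  exact (agree₂ U D F this).symm

/-- The strings `z` have large Kolmogorov complexity. -/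
theorem E_complex {m j i : ℕ} (hm : m < i) (hj : j < i) {v : Str} (hv : v.length ≤ 3 * i) {n : ℕ}
    (hn : n ≤ (F j).1 (E U D F i).z.length) :
    run (U m) (BB U D F) v [] [] n ≠ some (some (Sum.inl (E U D F i).z)) := by
  intro h
  have hN := E_next U D F i
  have hl := H_length U D F i
  have h2 := run_mono _ _ _ _ _ hn h
  refine hN.out m (by omega) v (by omega) j (by omega) ?_
  rw [← h2]
  unfold run
  refine run_congr _ _ _ _ _ fun s hs w hw => ?_
  have hlen := qat_length _ _ _ _ _ hw
  have hb := hN.bnd j (by omega)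
  have : w.length < (E U D F i).L := by
    have h0 : (init (U m) v [] []).head (queryTape (U m)) = 0 := rfl
    omega
  exact (agree₁ U D F this (hN.qry m (by omega) v (by omega) j (by omega) s hs.le w hw)).symm

/-- The program for the strings outside of `W`. -/
theorem pair_empty : Consistent pair (BB U D F) (fun n => 4 * n + 4) (AA U D F) [] ∧
    ∀ x, (¬ ∃ j, (E U D F j).z = x) → run pair (BB U D F) [] [] x (4 * x.length + 4) =
      some (some (Sum.inr (some (chi (AA U D F) x)))) := by
  have key : ∀ x, run pair (BB U D F) [] [] x (4 * x.length + 4) = some (some (Sum.inr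
      (if ∃ j, (E U D F j).z = x then none else some false))) := by
    intro x
    have h := pair_short (B := BB U D F) (p := []) (z := x) (Nat.zero_le _)
    rw [show 4 * x.length + 1 + 3 = 4 * x.length + 4 by ring] at h
    rw [h]
    have h1 : (BB U D F (false :: cod x []) = true) ↔ ¬ ∃ j, (E U D F j).z = x := by
      rw [BB, orc_cod (Nat.zero_le _), ex_iff]
      simp
    have h2 : BB U D F (false :: cod x [] ++ [true]) = false := by
      rw [← Bool.not_eq_true, BB, orc_cod_true (Nat.zero_le _)]
      simp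
    rw [h2]
    by_cases hx : ∃ j, (E U D F j).z = x
    · rw [if_neg (by rw [h1]; exact not_not.mpr hx), if_pos hx]
    · rw [if_pos (h1.mpr hx), if_neg hx]
  constructor
  · intro z
    refine ⟨_, key z, ?_⟩
    intro u hu
    obtain rfl := Option.some.inj hu
    by_cases hz : ∃ j, (E U D F j).z = z
    · rw [if_pos hz]; exact Or.inl rfl
    · rw [if_neg hz, chi_not U D F hz]; exact Or.inr rfl
  · intro x hx
    rw [key, if_neg hx, chi_not U D F hx]

/-- The program for one string of `W`. -/
theorem pair_one (i : ℕ) (hi : 0 < i) : ∃ p : Str, p.length = i ∧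
    Consistent pair (BB U D F) (fun n => 4 * n + 4) (AA U D F) p ∧
    run pair (BB U D F) p [] (E U D F i).z (4 * (E U D F i).z.length + 4) =
      some (some (Sum.inr (some (chi (AA U D F) (E U D F i).z)))) := by
  set p : Str := (E U D F i).a :: List.replicate (i - 1) false with hp
  have hpl : p.length = i := by rw [hp]; simp; omega
  have hpne : p ≠ [] := by rw [hp]; simp
  have hhead : p.head? = some (E U D F i).a := rfl
  have key : ∀ x, p.length ≤ x.length → run pair (BB U D F) p [] x (4 * x.length + 4) = some (some (Sum.inr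
      (if (E U D F i).z = x then some (E U D F i).a else none))) := by
    intro x hx
    have h := pair_short (B := BB U D F) hx
    rw [show 4 * x.length + 1 + 3 = 4 * x.length + 4 by ring] at h
    rw [h]
    have h1 : (BB U D F (false :: cod x p) = true) ↔ (E U D F i).z = x := by
      rw [BB, orc_cod hx, hpl]
      constructor
      · rintro (⟨h, _⟩ | ⟨_, e, he, hz⟩)
        · exact absurd h hpne
        · obtain rfl := Option.some.inj he
          exact hz
      · intro hz
        exact Or.inr ⟨hpne, _, rfl, hz⟩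
    have h2 : BB U D F (false :: cod x p ++ [true]) = (E U D F i).a := by
      rw [Bool.eq_iff_iff, BB, orc_cod_true hx, hhead]
      simp
    rw [h2]
    by_cases hx2 : (E U D F i).z = x
    · rw [if_pos (h1.mpr hx2), if_pos hx2]
    · rw [if_neg (by rw [h1]; exact hx2), if_neg hx2]
  refine ⟨p, hpl, ?_, ?_⟩
  · intro z
    rcases Nat.lt_or_ge z.length p.length with h | h
    · have h1 := pair_long (B := BB U D F) h
      rw [show 4 * z.length + 1 + 3 = 4 * z.length + 4 by ring] at h1
      exact ⟨_, h1, fun u hu => Or.inl (Option.some.inj hu).symm⟩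
    · refine ⟨_, key z h, ?_⟩
      intro u hu
      obtain rfl := Option.some.inj hu
      by_cases hz : (E U D F i).z = z
      · rw [if_pos hz, ← hz, chi_E]; exact Or.inr rfl
      · rw [if_neg hz]; exact Or.inl rfl
  · have hlen := (E_next U D F i).len
    rw [H_length] at hlen
    rw [key _ (by omega), if_pos rfl, chi_E]

end

theorem consistent_mono {M : OTM} {B : Str → Bool} {t t' : ℕ → ℕ} (h : ∀ n, t n ≤ t' n) {A : Set Str} {p : Str}
    (hp : Consistent M B t A p) : Consistent M B t' A p := by
  intro z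
  obtain ⟨o, h1, h2⟩ := hp z
  exact ⟨o, run_mono _ _ _ _ _ (h _) h1, h2⟩

theorem ic_mono {M : OTM} {B : Str → Bool} {t t' : ℕ → ℕ} (h : ∀ n, t n ≤ t' n) (A : Set Str) (x : Str) :
    ic M B t' A x ≤ ic M B t A x := by
  refine le_iInf fun ⟨p, hp1, hp2⟩ => ?_
  exact iInf_le_of_le ⟨p, consistent_mono h hp1, run_mono _ _ _ _ _ (h _) hp2⟩ le_rfl

theorem finite_simple (M : OTM) (B : Str → Bool) (t : ℕ → ℕ) (N : ℕ) : {x | Cx M B t x ≤ N}.Finite := by
  have h : ∀ x ∈ {x | Cx M B t x ≤ N}, ∃ p : Str, p.length ≤ N ∧ ∃ n, run M B p [] [] n = some (some (Sum.inl x)) := by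
    intro x hx
    have hx' : Cx M B t x < ((N + 1 : ℕ) : ℕ∞) := lt_of_le_of_lt hx (by exact_mod_cast Nat.lt_succ_self N)
    obtain ⟨⟨p, hp⟩, hlt⟩ := iInf_lt_iff.mp hx'
    exact ⟨p, Nat.lt_succ_iff.mp (by exact_mod_cast hlt), _, hp⟩
  choose! f hf1 hf2 using h
  refine Set.Finite.of_finite_image ((List.finite_length_le Bool N).subset ?_) (f := f) ?_
  · rintro _ ⟨x, hx, rfl⟩
    exact hf1 x hx
  · intro x hx y hy hxy
    obtain ⟨n, hn⟩ := hf2 x hx
    obtain ⟨m, hm⟩ := hf2 y hy
    rw [hxy] at hn
    simpa using run_unique _ _ _ _ _ hn hm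

theorem slow_le (c n : ℕ) : slow c (fun n => 4 * n + 4) n ≤ 17 * c * (n + 1) ^ 2 := by
  unfold slow
  have h1 : (c : ℝ) * ((4 * n + 4 : ℕ) : ℝ) * Real.log ((4 * n + 4 : ℕ) : ℝ) + c ≤ ((17 * c * (n + 1) ^ 2 : ℕ) : ℝ) := by
    have h2 : Real.log ((4 * n + 4 : ℕ) : ℝ) ≤ ((4 * n + 4 : ℕ) : ℝ) := Real.log_le_self (Nat.cast_nonneg _)
    have h3 : (0 : ℝ) ≤ c := Nat.cast_nonneg c
    have h4 : (0 : ℝ) ≤ n := Nat.cast_nonneg n
    have h5 : (c : ℝ) * ((4 * n + 4 : ℕ) : ℝ) * Real.log ((4 * n + 4 : ℕ) : ℝ) ≤
        (c : ℝ) * ((4 * n + 4 : ℕ) : ℝ) * ((4 * n + 4 : ℕ) : ℝ) := mul_le_mul_of_nonneg_left h2 (by positivity)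
    refine (add_le_add_left h5 _).trans ?_
    push_cast
    nlinarith [mul_nonneg h3 h4, mul_nonneg (mul_nonneg h3 h4) h4]
  exact (Nat.floor_le_floor h1).trans (by rw [Nat.floor_natCast])

/-- There is an oracle relative to which the conclusion of Q1 fails for all `t ≥ C (n + 1)^2` and all computable time
bounds `t' = o(2^n)`. -/
theorem main : ∃ (B : Str → Bool) (A : Set Str), Recursive B A ∧
    (∀ t g : ℕ → ℕ, Computable g → (∀ n, t n ≤ g n) → ¬ DTime B t A) ∧
    ∀ U : OTM, Optimal B U → ∃ C : ℕ, ∀ t : ℕ → ℕ, (∀ n, C * (n + 1) ^ 2 ≤ t n) →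
      ∀ t' f : ℕ → ℕ, Computable f → (∀ K : ℕ, ∀ᶠ n in Filter.atTop, K * f n ≤ 2 ^ n) → (∀ n, t' n ≤ f n) →
        ∀ c : ℕ, {x | Cx U B t' x ≤ ic U B t A x + c}.Finite := by
  have hne : Nonempty OTM := ⟨pair⟩
  obtain ⟨U, hU⟩ := exists_surjective_nat OTM
  have hne2 : Nonempty (OTM × {g : ℕ → ℕ // Computable g}) := ⟨(pair, ⟨id, Computable.id⟩)⟩
  obtain ⟨D, hD⟩ := exists_surjective_nat (OTM × {g : ℕ → ℕ // Computable g})
  have hcF : Countable {f : ℕ → ℕ // Computable f ∧ Small f} := by
    have : Function.Injective (fun f : {f : ℕ → ℕ // Computable f ∧ Small f} =>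
        (⟨f.1, f.2.1⟩ : {g : ℕ → ℕ // Computable g})) := by
      intro f g h
      apply Subtype.ext
      have h' : (⟨f.1, f.2.1⟩ : {g : ℕ → ℕ // Computable g}) = ⟨g.1, g.2.1⟩ := h
      exact Subtype.mk.inj h'
    exact this.countable
  have hne3 : Nonempty {f : ℕ → ℕ // Computable f ∧ Small f} :=
    ⟨⟨fun _ => 0, Computable.const 0, fun K => Filter.Eventually.of_forall fun n => by simp⟩⟩
  obtain ⟨F, hF⟩ := exists_surjective_nat {f : ℕ → ℕ // Computable f ∧ Small f}
  refine ⟨BB U D F, AA U D F, AA_recursive U D F, fun t g hg htg => AA_hard U D F hD hg htg, fun V hV => ?_⟩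
  obtain ⟨m, rfl⟩ := hU V
  obtain ⟨c₀, hc₀⟩ := hV pair
  refine ⟨17 * c₀, fun t ht t' f hf hfs ht' c => ?_⟩
  obtain ⟨j, hj⟩ := hF ⟨f, hf, hfs⟩
  have hslow : ∀ n, slow c₀ (fun n => 4 * n + 4) n ≤ t n := fun n => (slow_le c₀ n).trans (ht n)
  -- upper bounds for the instance complexity
  have hic : ∀ x, (¬ ∃ j, (E U D F j).z = x) → ic (U m) (BB U D F) t (AA U D F) x ≤ c₀ := by
    intro x hx
    obtain ⟨h1, h2⟩ := pair_empty U D F
    refine (ic_mono hslow _ _).trans ((hc₀ _ _ x).1.trans ?_)
    have h3 : ic pair (BB U D F) (fun n => 4 * n + 4) (AA U D F) x ≤ 0 :=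
      iInf_le_of_le ⟨[], h1, h2 x hx⟩ (by simp)
    calc _ ≤ (0 : ℕ∞) + c₀ := add_le_add h3 le_rfl
      _ = c₀ := zero_add _
  have hic2 : ∀ i, 0 < i → ic (U m) (BB U D F) t (AA U D F) (E U D F i).z ≤ (i + c₀ : ℕ) := by
    intro i hi
    obtain ⟨p, hpl, h1, h2⟩ := pair_one U D F i hi
    refine (ic_mono hslow _ _).trans ((hc₀ _ _ _).1.trans ?_)
    have h3 : ic pair (BB U D F) (fun n => 4 * n + 4) (AA U D F) (E U D F i).z ≤ i :=
      iInf_le_of_le ⟨p, h1, h2⟩ (by rw [hpl])
    push_cast
    exact add_le_add h3 le_rfl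
  -- the exceptions
  have hfin : ({x | Cx (U m) (BB U D F) t' x ≤ ((c₀ + c : ℕ) : ℕ∞)} ∪
      (fun i => (E U D F i).z) '' {i | i ≤ m + j + c₀ + c}).Finite :=
    (finite_simple _ _ _ _).union ((Set.finite_le_nat _).image _)
  refine hfin.subset ?_
  intro x hx
  have hx' : Cx (U m) (BB U D F) t' x ≤ ic (U m) (BB U D F) t (AA U D F) x + c := hx
  by_cases hW : ∃ i, (E U D F i).z = x
  · obtain ⟨i, rfl⟩ := hW
    right
    refine ⟨i, ?_, rfl⟩
    show i ≤ m + j + c₀ + c
    by_contra hlt
    have h1 := hx'.trans (add_le_add (hic2 i (by omega)) le_rfl)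
    have h2 : Cx (U m) (BB U D F) t' (E U D F i).z < ((3 * i + 1 : ℕ) : ℕ∞) := by
      refine lt_of_le_of_lt h1 ?_
      have : i + c₀ + c < 3 * i + 1 := by omega
      exact_mod_cast this
    obtain ⟨⟨p, hp⟩, hlt2⟩ := iInf_lt_iff.mp h2
    have h3 : p.length < 3 * i + 1 := by exact_mod_cast hlt2
    refine E_complex U D F (m := m) (j := j) (i := i) (by omega) (by omega) (v := p) (by omega)
      (n := t' (E U D F i).z.length) ?_ hp
    rw [hj]
    exact ht' _
  · left
    show Cx (U m) (BB U D F) t' x ≤ ((c₀ + c : ℕ) : ℕ∞)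
    refine hx'.trans ((add_le_add (hic x hW) le_rfl).trans ?_)
    push_cast
    exact le_rfl

end Pool.Agent.ICT
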