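import Pool.Agent.helper10.ICO.Guide

set_option autoImplicit false

/-!
# The machine which asks the oracle about the pair of its inputs
-/

namespace Pool.Agent.ICT

open scoped Classical
open Pool.Agent.ICO

/-- The code of the pair of two strings, the second of which is not longer than the first. -/
def cod : Str → Str → Str
  | [], _ => [false]
  | b :: z, [] => true :: b :: false :: false :: cod z []
  | b :: z, a :: p => true :: b :: true :: a :: cod z p

theorem cod_inj : ∀ (z z' p p' r r' : Str), p.length ≤ z.length → p'.length ≤ z'.length →
    cod z p ++ r = cod z' p' ++ r' → z = z' ∧ p = p' ∧ r = r' := by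
  intro z
  induction z with
  | nil =>
    intro z' p p' r r' hp hp' h
    have hp0 : p = [] := List.length_eq_zero_iff.mp (Nat.le_zero.mp hp)
    cases z' with
    | nil =>
      have hp0' : p' = [] := List.length_eq_zero_iff.mp (Nat.le_zero.mp hp')
      simp only [cod, List.cons_append, List.nil_append, List.cons.injEq, true_and] at h
      exact ⟨rfl, by rw [hp0, hp0'], h⟩
    | cons b' z' => cases p' <;> simp [cod] at h
  | cons b z ih =>
    intro z' p p' r r' hp hp' h
    cases z' with
    | nil => cases p <;> simp [cod] at h
    | cons b' z' =>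
      cases p with
      | nil =>
        cases p' with
        | nil =>
          simp only [cod, List.cons_append, List.cons.injEq, true_and] at h
          obtain ⟨h1, h2⟩ := h
          obtain ⟨h3, _, h5⟩ := ih z' [] [] r r' (Nat.zero_le _) (Nat.zero_le _) h2
          exact ⟨by rw [h1, h3], rfl, h5⟩
        | cons a' p' => simp [cod] at h
      | cons a p =>
        cases p' with
        | nil => simp [cod] at h
        | cons a' p' =>
          simp only [cod, List.cons_append, List.cons.injEq, true_and] at h
          obtain ⟨h1, h1', h2⟩ := h
          obtain ⟨h3, h4, h5⟩ := ih z' p p' r r' (by simpa using hp) (by simpa using hp') h2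
          exact ⟨by rw [h1, h3], by rw [h1', h4], h5⟩

theorem length_cod : ∀ (z p : Str), (cod z p).length = 4 * z.length + 1
  | [], _ => by simp [cod]
  | b :: z, [] => by simp only [cod, List.length_cons, length_cod z []]; omega
  | b :: z, a :: p => by simp only [cod, List.length_cons, length_cod z p]; omega

/-- The first `i` blocks of the code. -/
def codp : ℕ → Str → Str → Str
  | 0, _, _ => []
  | _ + 1, [], _ => []
  | i + 1, b :: z, [] => true :: b :: false :: false :: codp i z []
  | i + 1, b :: z, a :: p => true :: b :: true :: a :: codp i z p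

theorem codp_succ : ∀ (i : ℕ) (z p : Str) (hi : i < z.length), codp (i + 1) z p =
    codp i z p ++ [true, z[i], (p[i]?).isSome, (p[i]?).getD false]
  | 0, b :: z, [], _ => rfl
  | 0, b :: z, a :: p, _ => rfl
  | i + 1, b :: z, [], hi => by
    have := codp_succ i z [] (by simpa using hi)
    rw [codp, this]
    simp [codp]
  | i + 1, b :: z, a :: p, hi => by
    have := codp_succ i z p (by simpa using hi)
    rw [codp, this]
    simp [codp]

theorem codp_all : ∀ (z p : Str), codp z.length z p ++ [false] = cod z p
  | [], _ => rfl
  | b :: z, [] => by simp only [List.length_cons, codp, cod, List.cons_append, codp_all z []]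
  | b :: z, a :: p => by simp only [List.length_cons, codp, cod, List.cons_append, codp_all z p]

/-- Write `w` on the query tape (if any), and move the heads of the tapes of `p` and `z` if `mv` is true. -/
def wr2 (r : Fin (0 + 5) → Fin (0 + 3)) (w : Option Bool) (mv : Bool) (j : Fin (0 + 5)) : Fin (0 + 3) × Move :=
  if j.val = 4 then (match w with | some b => (sym 0 b, .right) | none => (r j, .stay))
  else if j.val = 0 ∨ j.val = 2 then (r j, if mv then .right else .stay)
  else (r j, .stay)

/-- Go to the state `st` and move as in `wr2`. -/
def act2 (r : Fin (0 + 5) → Fin (0 + 3)) (st : ℕ) (w : Option Bool) (mv : Bool) :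
    Stop ⊕ (Fin (6 + 1) × (Fin (0 + 5) → Fin (0 + 3) × Move)) :=
  .inr (Fin.ofNat (6 + 1) st, wr2 r w mv)

/-- The transition function. -/
def pδ (st : Fin (6 + 1)) (r : Fin (0 + 5) → Fin (0 + 3)) (ans : Bool) :
    Stop ⊕ (Fin (6 + 1) × (Fin (0 + 5) → Fin (0 + 3) × Move)) :=
  if st.val = 0 then act2 r 1 (some false) false
  else if st.val = 1 then
    (if (toBit (r 2)).isSome then act2 r 2 (some true) false
      else if (toBit (r 0)).isSome then .inl .dontKnow else act2 r 5 (some false) false)
  else if st.val = 2 then act2 r 3 (toBit (r 2)) false
  else if st.val = 3 then act2 r 4 (some (toBit (r 0)).isSome) false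
  else if st.val = 4 then act2 r 1 (some ((toBit (r 0)).getD false)) true
  else if st.val = 5 then (if ans then act2 r 6 (some true) false else .inl .dontKnow)
  else .inl (.bit ans)

/-- The pair machine. -/
abbrev pair : OTM where
  k := 0
  s := 0
  q := 6
  δ := pδ

section

variable {B : Str → Bool} {p z : Str}

/-- The configuration has the state `st`, the heads of the input tapes are at the position `i`, the word `w` is on
the query tape. -/
structure Is2 (p z : Str) (c : Cfg pair) (st i : ℕ) (w : Str) : Prop where
  state : c.state.val = st
  inp : c.tape (0 : Fin 5) = ofStr 0 p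
  inz : c.tape (2 : Fin 5) = ofStr 0 z
  posp : c.head (0 : Fin 5) = i
  posz : c.head (2 : Fin 5) = i
  qword : word (c.tape (4 : Fin 5)) (c.head (4 : Fin 5)) = w

theorem step_act2 {c : Cfg pair} {st i : ℕ} {w : Str} (h : Is2 p z c st i w) {st' : ℕ} {w' : Option Bool}
    {mv : Bool} (hst : st' < 7)
    (hδ : pδ c.state (fun j => c.tape j (c.head j)) (B w) = act2 (fun j => c.tape j (c.head j)) st' w' mv) :
    ∃ c', step pair B c = .inr c' ∧ Is2 p z c' st' (if mv then i + 1 else i) (app w w') := by
  have hq : word (c.tape (queryTape pair)) (c.head (queryTape pair)) = w := h.qword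
  have hδ' : pair.δ c.state (fun j => c.tape j (c.head j)) (B w) =
    .inr (Fin.ofNat (6 + 1) st', wr2 (fun j => c.tape j (c.head j)) w' mv) := hδ
  have hstep : step pair B c = .inr
      { state := Fin.ofNat (6 + 1) st'
        tape := fun j => Function.update (c.tape j) (c.head j) (wr2 (fun j => c.tape j (c.head j)) w' mv j).1
        head := fun j => (wr2 (fun j => c.tape j (c.head j)) w' mv j).2.apply (c.head j) } := by
    unfold step
    rw [hq, hδ']
  have e0 : wr2 (fun j => c.tape j (c.head j)) w' mv (0 : Fin 5) =
      (c.tape (0 : Fin 5) (c.head (0 : Fin 5)), if mv then .right else .stay) := rfl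
  have e2 : wr2 (fun j => c.tape j (c.head j)) w' mv (2 : Fin 5) =
      (c.tape (2 : Fin 5) (c.head (2 : Fin 5)), if mv then .right else .stay) := rfl
  refine ⟨_, hstep, ?_, ?_, ?_, ?_, ?_, ?_⟩
  · show st' % (6 + 1) = st'
    exact Nat.mod_eq_of_lt (by omega)
  · show Function.update (c.tape (0 : Fin 5)) (c.head (0 : Fin 5)) (wr2 (fun j => c.tape j (c.head j)) w' mv (0 : Fin 5)).1 = _
    rw [e0]
    simp only [Function.update_eq_self]
    exact h.inp
  · show Function.update (c.tape (2 : Fin 5)) (c.head (2 : Fin 5)) (wr2 (fun j => c.tape j (c.head j)) w' mv (2 : Fin 5)).1 = _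
    rw [e2]
    simp only [Function.update_eq_self]
    exact h.inz
  · show (wr2 (fun j => c.tape j (c.head j)) w' mv (0 : Fin 5)).2.apply (c.head (0 : Fin 5)) = _
    rw [e0, h.posp]
    cases mv <;> rfl
  · show (wr2 (fun j => c.tape j (c.head j)) w' mv (2 : Fin 5)).2.apply (c.head (2 : Fin 5)) = _
    rw [e2, h.posz]
    cases mv <;> rfl
  · show word (Function.update (c.tape (4 : Fin 5)) (c.head (4 : Fin 5))
      (wr2 (fun j => c.tape j (c.head j)) w' mv (4 : Fin 5)).1)
      ((wr2 (fun j => c.tape j (c.head j)) w' mv (4 : Fin 5)).2.apply (c.head (4 : Fin 5))) = _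
    cases w' with
    | none =>
      have e4 : wr2 (fun j => c.tape j (c.head j)) none mv (4 : Fin 5) =
        (c.tape (4 : Fin 5) (c.head (4 : Fin 5)), .stay) := rfl
      rw [e4]
      simp only [Function.update_eq_self, Move.apply, app, Option.toList, List.append_nil]
      exact h.qword
    | some b =>
      have e4 : wr2 (fun j => c.tape j (c.head j)) (some b) mv (4 : Fin 5) = (sym 0 b, .right) := rfl
      rw [e4]
      simp only [Move.apply, app, Option.toList]
      rw [word_write, h.qword]

theorem readz {c : Cfg pair} {st i : ℕ} {w : Str} (h : Is2 p z c st i w) :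
    toBit (c.tape (2 : Fin 5) (c.head (2 : Fin 5))) = z[i]? := by
  rw [h.inz, h.posz, toBit_ofStr]

theorem readp {c : Cfg pair} {st i : ℕ} {w : Str} (h : Is2 p z c st i w) :
    toBit (c.tape (0 : Fin 5) (c.head (0 : Fin 5))) = p[i]? := by
  rw [h.inp, h.posp, toBit_ofStr]

theorem reach_blocks : ∀ (n : ℕ) (c : Cfg pair) (i : ℕ), i + n = z.length → Is2 p z c 1 i (false :: codp i z p) →
    Reach pair B c (4 * n) (fun c' => Is2 p z c' 1 z.length (false :: codp z.length z p)) := by
  intro n
  induction n with
  | zero =>
    intro c i hi h
    obtain rfl : i = z.length := by omega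
    exact Reach.refl h
  | succ n ih =>
    intro c i hi h
    have hi' : i < z.length := by omega
    have hz : z[i]? = some z[i] := List.getElem?_eq_getElem hi'
    have hst := h.state
    obtain ⟨c₁, hs₁, h₁⟩ := step_act2 (B := B) h (st' := 2) (w' := some true) (mv := false) (by omega) (by
      unfold pδ
      have hr := readz h
      rw [hz] at hr
      rw [if_neg (by omega), if_pos (by omega)]
      simp only [hr, Option.isSome_some, if_true])
    have hst₁ := h₁.state
    obtain ⟨c₂, hs₂, h₂⟩ := step_act2 (B := B) h₁ (st' := 3) (w' := some z[i]) (mv := false) (by omega) (by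
      unfold pδ
      have hr := readz h₁
      simp only [Bool.false_eq_true, if_false] at hr
      rw [hz] at hr
      rw [if_neg (by omega), if_neg (by omega), if_pos (by omega)]
      simp only [hr])
    have hst₂ := h₂.state
    obtain ⟨c₃, hs₃, h₃⟩ := step_act2 (B := B) h₂ (st' := 4) (w' := some (p[i]?).isSome) (mv := false) (by omega) (by
      unfold pδ
      have hr := readp h₂
      simp only [Bool.false_eq_true, if_false] at hr
      rw [if_neg (by omega), if_neg (by omega), if_neg (by omega), if_pos (by omega)]
      simp only [hr])
    have hst₃ := h₃.state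
    obtain ⟨c₄, hs₄, h₄⟩ := step_act2 (B := B) h₃ (st' := 1) (w' := some ((p[i]?).getD false)) (mv := true)
      (by omega) (by
      unfold pδ
      have hr := readp h₃
      simp only [Bool.false_eq_true, if_false] at hr
      rw [if_neg (by omega), if_neg (by omega), if_neg (by omega), if_neg (by omega), if_pos (by omega)]
      simp only [hr])
    rw [show 4 * (n + 1) = (4 * n) + 1 + 1 + 1 + 1 by ring]
    refine Reach.step hs₁ (Reach.step hs₂ (Reach.step hs₃ (Reach.step hs₄ (ih c₄ (i + 1) (by omega) ?_))))
    have e : false :: codp (i + 1) z p =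
        app (app (app (app (false :: codp i z p) (some true)) (some z[i])) (some (p[i]?).isSome))
          (some ((p[i]?).getD false)) := by
      rw [codp_succ i z p hi']
      simp [app]
    rw [e]
    exact h₄

theorem init_is2 (p z : Str) : Is2 p z (init pair p [] z) 0 0 [] := ⟨rfl, rfl, rfl, rfl, rfl, rfl⟩

theorem reach_start : Reach pair B (init pair p [] z) (4 * z.length + 1)
    (fun c' => Is2 p z c' 1 z.length (false :: codp z.length z p)) := by
  obtain ⟨c₁, hs₁, h₁⟩ := step_act2 (B := B) (init_is2 p z) (st' := 1) (w' := some false) (mv := false) (by omega) (by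
    unfold pδ
    rw [if_pos (show (init pair p [] z).state.val = 0 from rfl)])
  exact Reach.step hs₁ (reach_blocks z.length c₁ 0 (by omega) h₁)

theorem pair_long (h : z.length < p.length) : run pair B p [] z (4 * z.length + 1 + 3) = some (some (Sum.inr none)) := by
  obtain ⟨c, hc, hr⟩ := reach_start (B := B) (p := p) (z := z)
  unfold run
  rw [hr, runFrom]
  have hst := hc.state
  have hz := readz hc
  have hp := readp hc
  rw [List.getElem?_eq_none le_rfl] at hz
  rw [List.getElem?_eq_getElem h] at hp
  have hstep : step pair B c = .inl (some (.inr none)) := by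
    unfold step
    have hδ' : ∀ a, pair.δ c.state (fun j => c.tape j (c.head j)) a = .inl .dontKnow := by
      intro a
      show pδ c.state (fun j => c.tape j (c.head j)) a = _
      unfold pδ
      rw [if_neg (by omega), if_pos (by omega)]
      simp only [hz, hp, Option.isSome_some, Option.isSome_none, Bool.false_eq_true, if_false, if_true]
    rw [hδ']
  rw [hstep]

theorem pair_short (h : p.length ≤ z.length) : run pair B p [] z (4 * z.length + 1 + 3) =
    some (some (Sum.inr (if B (false :: cod z p) = true then some (B (false :: cod z p ++ [true])) else none))) := by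
  obtain ⟨c, hc, hr⟩ := reach_start (B := B) (p := p) (z := z)
  unfold run
  rw [hr]
  have hst := hc.state
  have hz := readz hc
  have hp := readp hc
  rw [List.getElem?_eq_none le_rfl] at hz
  rw [List.getElem?_eq_none h] at hp
  obtain ⟨c₁, hs₁, h₁⟩ := step_act2 (B := B) hc (st' := 5) (w' := some false) (mv := false) (by omega) (by
    unfold pδ
    rw [if_neg (by omega), if_pos (by omega)]
    simp only [hz, hp, Option.isSome_none, Bool.false_eq_true, if_false])
  have ew : app (false :: codp z.length z p) (some false) = false :: cod z p := by
    rw [← codp_all]; simp [app]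
  rw [ew] at h₁
  simp only [Bool.false_eq_true, if_false] at h₁
  have hst₁ := h₁.state
  rw [runFrom_step hs₁]
  cases hans : B (false :: cod z p) with
  | false =>
    have hstep : step pair B c₁ = .inl (some (.inr none)) := by
      unfold step
      have hq : word (c₁.tape (queryTape pair)) (c₁.head (queryTape pair)) = false :: cod z p := h₁.qword
      have hδ' : pair.δ c₁.state (fun j => c₁.tape j (c₁.head j)) (B (false :: cod z p)) = .inl .dontKnow := by
        show pδ c₁.state (fun j => c₁.tape j (c₁.head j)) _ = _
        unfold pδ
        rw [if_neg (by omega), if_neg (by omega), if_neg (by omega), if_neg (by omega), if_neg (by omega),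
          if_pos (by omega), hans]
        rfl
      rw [hq, hδ']
    rw [runFrom, hstep]
    simp
  | true =>
    obtain ⟨c₂, hs₂, h₂⟩ := step_act2 (B := B) h₁ (st' := 6) (w' := some true) (mv := false) (by omega) (by
      unfold pδ
      rw [if_neg (by omega), if_neg (by omega), if_neg (by omega), if_neg (by omega), if_neg (by omega),
        if_pos (by omega), hans]
      rfl)
    have ew : app (false :: cod z p) (some true) = false :: cod z p ++ [true] := rfl
    rw [ew] at h₂
    have hst₂ := h₂.state
    rw [runFrom_step hs₂]
    have hstep : step pair B c₂ = .inl (some (.inr (some (B (false :: cod z p ++ [true]))))) := by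
      unfold step
      have hq : word (c₂.tape (queryTape pair)) (c₂.head (queryTape pair)) = false :: cod z p ++ [true] := h₂.qword
      have hδ' : pair.δ c₂.state (fun j => c₂.tape j (c₂.head j)) (B (false :: cod z p ++ [true])) =
          .inl (.bit (B (false :: cod z p ++ [true]))) := by
        show pδ c₂.state (fun j => c₂.tape j (c₂.head j)) _ = _
        unfold pδ
        rw [if_neg (by omega), if_neg (by omega), if_neg (by omega), if_neg (by omega), if_neg (by omega),
          if_neg (by omega)]
      rw [hq, hδ']
    rw [runFrom, hstep]
    simp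

end

end Pool.Agent.ICT
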