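import Pool.Agent.helper10.ICT.Entry
import Pool.Agent.helper10.ICS.Family

set_option autoImplicit false

/-!
# The construction of the entries
-/

namespace Pool.Agent.ICT

open scoped Classical
open Pool.Agent.ICO

/-- The configuration after `s` steps. -/
def after (M : OTM) (B : Str → Bool) : ℕ → Cfg M → Option (Cfg M)
  | 0, c => some c
  | s + 1, c =>
    match step M B c with
    | .inl _ => none
    | .inr c' => after M B s c'

/-- The word on the query tape after `s` steps. -/
def qat (M : OTM) (B : Str → Bool) (s : ℕ) (c : Cfg M) : Option Str :=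
  (after M B s c).map fun c => word (c.tape (queryTape M)) (c.head (queryTape M))

theorem qat_succ {M : OTM} {B : Str → Bool} {c c' : Cfg M} (h : step M B c = .inr c') (s : ℕ) :
    qat M B (s + 1) c = qat M B s c' := by
  unfold qat
  rw [after, h]

theorem run_congr (M : OTM) (B B' : Str → Bool) : ∀ (n : ℕ) (c : Cfg M),
    (∀ s < n, ∀ w, qat M B s c = some w → B w = B' w) → runFrom M B n c = runFrom M B' n c := by
  intro n
  induction n with
  | zero => intro c _; rfl
  | succ n ih =>
    intro c h
    have hs := step_congr M B B' c (h 0 (by omega) _ rfl)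
    unfold runFrom
    rw [← hs]
    cases hc : step M B c with
    | inl o => rfl
    | inr c' =>
      exact ih c' (fun s hsn w hw => h (s + 1) (by omega) w (by rw [qat_succ hc]; exact hw))

theorem qat_length (M : OTM) (B : Str → Bool) : ∀ (s : ℕ) (c : Cfg M) (w : Str), qat M B s c = some w →
    w.length ≤ c.head (queryTape M) + s := by
  intro s
  induction s with
  | zero =>
    intro c w h
    have : word (c.tape (queryTape M)) (c.head (queryTape M)) = w := Option.some.inj h
    rw [← this]
    exact word_length_le _ _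
  | succ s ih =>
    intro c w h
    cases hc : step M B c with
    | inl o => unfold qat at h; rw [after, hc] at h; simp at h
    | inr c' =>
      rw [qat_succ hc] at h
      have h1 := ih c' w h
      have h2 := step_head M B c c' hc (queryTape M)
      omega

theorem exists_avoid {ι : Type} (I : Finset ι) (g : ι → Option Str) (n : ℕ) (h : I.card < 2 ^ n) :
    ∃ z : Str, z.length = n ∧ ∀ i ∈ I, g i ≠ some z := by
  by_contra hno
  push Not at hno
  set V : Finset Str := (Finset.univ : Finset (Fin n → Bool)).image List.ofFn with hV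
  have hVc : V.card = 2 ^ n := by
    rw [hV, Finset.card_image_of_injective _ List.ofFn_injective]
    simp
  have hsub : V ⊆ I.biUnion (fun i => (g i).toFinset) := by
    intro z hz
    rw [hV, Finset.mem_image] at hz
    obtain ⟨u, _, hu⟩ := hz
    obtain ⟨i, hi, hgi⟩ := hno z (by rw [← hu]; simp)
    rw [Finset.mem_biUnion]
    exact ⟨i, hi, by rw [hgi]; simp⟩
  have h1 : V.card ≤ I.card := by
    refine (Finset.card_le_card hsub).trans (Finset.card_biUnion_le.trans ?_)
    calc ∑ i ∈ I, (g i).toFinset.card ≤ ∑ i ∈ I, 1 := Finset.sum_le_sum fun i _ => by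
          cases g i <;> simp
      _ = I.card := by simp
  omega

/-- `f = o(2^n)`. -/
def Small (f : ℕ → ℕ) : Prop := ∀ K : ℕ, ∀ᶠ n in Filter.atTop, K * f n ≤ 2 ^ n

section

variable (U : ℕ → OTM) (D : ℕ → OTM × {g : ℕ → ℕ // Computable g}) (F : ℕ → {f : ℕ → ℕ // Computable f ∧ Small f})

/-- The entries of a list. -/
def ls (l : List Ent) (j : ℕ) : Option Ent := l[j]?

/-- The entry `e` is a suitable continuation of the list `l`. -/
structure Next (l : List Ent) (e : Ent) : Prop where
  len : l.length < e.z.length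
  old : ∀ e' ∈ l, e'.L < e.z.length ∧ e'.z.length < e.z.length
  qry : ∀ m < l.length, ∀ v : Str, v.length ≤ 3 * l.length → ∀ j < l.length, ∀ s ≤ (F j).1 e.z.length, ∀ w,
    qat (U m) (orc (ls l)) s (init (U m) v [] []) = some w → ¬ Ment w e.z
  out : ∀ m < l.length, ∀ v : Str, v.length ≤ 3 * l.length → ∀ j < l.length,
    run (U m) (orc (ls l)) v [] [] ((F j).1 e.z.length) ≠ some (some (Sum.inl e.z))
  bnd : ∀ j < l.length, (F j).1 e.z.length < e.L
  bnd2 : (D l.length).2.1 e.z.length < e.L
  dia : run (D l.length).1 (orc (ls (l ++ [⟨e.z, false, e.L⟩]))) [] [] e.z ((D l.length).2.1 e.z.length) ≠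
    some (some (Sum.inr (some e.a)))

theorem exists_next (l : List Ent) : ∃ e, Next U D F l e := by
  set i := l.length with hi
  set T : ℕ → ℕ := fun n => (Finset.range i).sup (fun j => (F j).1 n) with hT
  have hTle : ∀ n, ∀ j < i, (F j).1 n ≤ T n := fun n j hj =>
    Finset.le_sup (f := fun j => (F j).1 n) (Finset.mem_range.mpr hj)
  -- a suitable length
  obtain ⟨n, hn1, hn2, hn3⟩ : ∃ n, i < n ∧ (∀ e' ∈ l, e'.L < n ∧ e'.z.length < n) ∧
      i * (2 ^ (3 * i + 1) * (T n + 2)) < 2 ^ n := by
    have h1 : ∀ᶠ n in Filter.atTop, ∀ e' ∈ l, e'.L < n ∧ e'.z.length < n := by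
      have : ∀ᶠ n in Filter.atTop, ∀ e' ∈ {e | e ∈ l}, e'.L < n ∧ e'.z.length < n := by
        rw [Filter.eventually_all_finite (List.finite_toSet l)]
        intro e' _
        exact (Filter.eventually_gt_atTop e'.L).and (Filter.eventually_gt_atTop e'.z.length)
      exact this
    have h2 : ∀ᶠ n in Filter.atTop, ∀ j ∈ Finset.range i, (4 * i * 2 ^ (3 * i + 1)) * (F j).1 n ≤ 2 ^ n := by
      rw [Filter.eventually_all_finset]
      intro j _
      exact (F j).2.2 _
    have h3 : ∀ᶠ n : ℕ in Filter.atTop, 8 * i * 2 ^ (3 * i + 1) < 2 ^ n := by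
      filter_upwards [Filter.eventually_ge_atTop (8 * i * 2 ^ (3 * i + 1))] with n hn
      exact lt_of_le_of_lt hn Nat.lt_two_pow_self
    obtain ⟨n, ⟨⟨h4, h5⟩, h6⟩, h7⟩ := (((Filter.eventually_gt_atTop i).and h1).and h2 |>.and h3).exists
    refine ⟨n, h4, h5, ?_⟩
    have h8 : (4 * i * 2 ^ (3 * i + 1)) * T n ≤ 2 ^ n := by
      rcases Nat.eq_zero_or_pos i with h0 | h0
      · rw [h0]; simp
      · obtain ⟨j, hj, hj2⟩ := Finset.exists_mem_eq_sup (Finset.range i) ⟨0, Finset.mem_range.mpr h0⟩
          (fun j => (F j).1 n)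
        have := h6 j hj
        rw [hT]
        simp only
        rw [hj2]
        exact this
    have h9 : 4 * (i * (2 ^ (3 * i + 1) * (T n + 2))) =
        (4 * i * 2 ^ (3 * i + 1)) * T n + 8 * i * 2 ^ (3 * i + 1) := by ring
    omega
  -- a suitable string
  set B := orc (ls l) with hB
  have hment : ∀ (m : ℕ) (v : Str) (s : ℕ), ∃ o : Option Str, ∀ z w,
      qat (U m) B s (init (U m) v [] []) = some w → Ment w z → o = some z := by
    intro m v s
    by_cases h : ∃ z w, qat (U m) B s (init (U m) v [] []) = some w ∧ Ment w z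
    · obtain ⟨z, w, h1, h2⟩ := h
      refine ⟨some z, fun z' w' h3 h4 => ?_⟩
      rw [h1] at h3
      obtain rfl := Option.some.inj h3
      rw [h2.unique h4]
    · exact ⟨none, fun z w h1 h2 => absurd ⟨z, w, h1, h2⟩ h⟩
  choose mz hmz using hment
  have hout : ∀ (m : ℕ) (v : Str) (s : ℕ), ∃ o : Option Str, ∀ z,
      run (U m) B v [] [] s = some (some (Sum.inl z)) → o = some z := by
    intro m v s
    by_cases h : ∃ z, run (U m) B v [] [] s = some (some (Sum.inl z))
    · obtain ⟨z, h1⟩ := h
      refine ⟨some z, fun z' h3 => ?_⟩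
      rw [h1] at h3
      simpa using h3
    · exact ⟨none, fun z h1 => absurd ⟨z, h1⟩ h⟩
  choose oz hoz using hout
  set I : Finset (ℕ × ℕ × ℕ) := Finset.range i ×ˢ Finset.range (2 ^ (3 * i + 1)) ×ˢ Finset.range (T n + 2) with hI
  obtain ⟨z, hz1, hz2⟩ := exists_avoid I (fun x => if x.2.2 ≤ T n then mz x.1 (ICS.en x.2.1) x.2.2
    else oz x.1 (ICS.en x.2.1) (T n)) n (by
      rw [hI, Finset.card_product, Finset.card_product, Finset.card_range, Finset.card_range, Finset.card_range]
      exact hn3)
  have hnum : ∀ v : Str, v.length ≤ 3 * i → ICS.num v < 2 ^ (3 * i + 1) := by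
    intro v hv
    have h1 := (ICS.en_length_le (ICS.num v) (3 * i)).mp (by rw [ICS.en_num]; exact hv)
    omega
  set G := (D i).2.1 n with hG
  set L := G + T n + 1 with hL
  set o := run (D i).1 (orc (ls (l ++ [⟨z, false, L⟩]))) [] [] z G with ho
  refine ⟨⟨z, decide (o ≠ some (some (Sum.inr (some true)))), L⟩, ?_, ?_, ?_, ?_, ?_, ?_, ?_⟩
  · show i < z.length
    omega
  · intro e' he'
    show e'.L < z.length ∧ e'.z.length < z.length
    rw [hz1]
    exact hn2 e' he'
  · intro m hm v hv j hj s hs w hw hment
    simp only at hs hment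
    rw [hz1] at hs
    have hs' : s ≤ T n := hs.trans (hTle n j hj)
    have := hz2 (m, ICS.num v, s) (by
      rw [hI]
      simp only [Finset.mem_product, Finset.mem_range]
      exact ⟨hm, hnum v hv, by omega⟩)
    simp only at this
    rw [if_pos hs', ICS.en_num] at this
    exact this (hmz m v s z w hw hment)
  · intro m hm v hv j hj hrun
    simp only at hrun
    rw [hz1] at hrun
    have := hz2 (m, ICS.num v, T n + 1) (by
      rw [hI]
      simp only [Finset.mem_product, Finset.mem_range]
      exact ⟨hm, hnum v hv, by omega⟩)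
    simp only at this
    rw [if_neg (by omega), ICS.en_num] at this
    exact this (hoz m v (T n) z (run_mono _ _ _ _ _ (hTle n j hj) hrun))
  · intro j hj
    show (F j).1 z.length < L
    have := hTle n j hj
    rw [hz1]
    omega
  · show (D i).2.1 z.length < L
    rw [hz1]
    omega
  · simp only
    rw [hz1]
    show o ≠ _
    by_cases h : o = some (some (Sum.inr (some true)))
    · rw [h]
      simp
    · rw [decide_eq_true h]
      exact h

end

end Pool.Agent.ICT
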